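import Mathlib
import Pool.Agent.Helper540.Osgood

/-!
The product `z₁ z₂` of the first two coordinates is an L-atom on `ℂⁿ` for every `n ≥ 2`, but it is
not the first component of an analytic automorphism of `ℂⁿ`.
-/

set_option autoImplicit false

open Filter Topology

namespace Pool.Agent.Results.MP_cc4673_an.ProductIsLAtom

/-- `ℂⁿ` with its Euclidean norm. -/
abbrev Cn (n : ℕ) := EuclideanSpace ℂ (Fin n)

/-- The L-property of `h` on the sequence `z`: for every compact subset `K` of the range
`G_h = h(ℂⁿ)`, only finitely many of the points `h (z k)` lie in `K`. -/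
def HasLProperty {n : ℕ} (h : Cn n → ℂ) (z : ℕ → Cn n) : Prop :=
  ∀ K : Set ℂ, IsCompact K → K ⊆ Set.range h → {k : ℕ | h (z k) ∈ K}.Finite

/-- `(f, g)` is an ordered L-pair: `g` has the L-property on every sequence tending to infinity on
which `f` has the L-property. -/
def IsOrderedLPair {n : ℕ} (f g : Cn n → ℂ) : Prop :=
  ∀ z : ℕ → Cn n, Tendsto (fun k => ‖z k‖) atTop atTop → HasLProperty f z → HasLProperty g z

/-- `α` is an L-atom: a non-constant entire function such that every entire `f` for which `(f, α)`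
is an ordered L-pair has the form `φ ∘ α` with `φ` holomorphic on `G_α = α(ℂⁿ)`. -/
def IsLAtom {n : ℕ} (α : Cn n → ℂ) : Prop :=
  Differentiable ℂ α ∧ (∃ x y : Cn n, α x ≠ α y) ∧
    ∀ f : Cn n → ℂ, Differentiable ℂ f → IsOrderedLPair f α →
      ∃ φ : ℂ → ℂ, DifferentiableOn ℂ φ (Set.range α) ∧ ∀ z, f z = φ (α z)

/-- An analytic automorphism of `ℂⁿ`: an injective holomorphic map of `ℂⁿ` onto `ℂⁿ`. -/
def IsAutomorphism {n : ℕ} (F : Cn n → Cn n) : Prop :=
  Differentiable ℂ F ∧ Function.Injective F ∧ Function.Surjective F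

/-- `f` is the first component of an analytic automorphism of `ℂⁿ`. -/
def IsFirstComponent {n : ℕ} (f : Cn n → ℂ) : Prop :=
  ∃ (F : Cn n → Cn n) (i : Fin n), (i : ℕ) = 0 ∧ IsAutomorphism F ∧ ∀ z, F z i = f z

section

variable {n : ℕ} (i j : Fin n)

lemma pair_bounded {α f : Cn n → ℂ} (hα : Function.Surjective α)
    (hf : Differentiable ℂ f) (hp : IsOrderedLPair f α) (R : ℝ) :
    ∃ B : ℝ, ∀ z, ‖α z‖ ≤ R → ‖f z‖ ≤ B := by
  by_contra hcon
  push Not at hcon
  have hk : ∀ k : ℕ, ∃ z, ‖α z‖ ≤ R ∧ (k : ℝ) < ‖f z‖ := fun k => hcon k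
  choose z hz1 hz2 using hk
  have htend : Tendsto (fun k => ‖z k‖) atTop atTop := by
    rw [tendsto_atTop]
    intro M
    obtain ⟨B, hB⟩ := (isCompact_closedBall (0 : Cn n) M).exists_bound_of_continuousOn
      hf.continuous.continuousOn
    obtain ⟨N, hN⟩ := exists_nat_ge B
    filter_upwards [eventually_ge_atTop N] with k hk
    by_contra hlt
    have h1 : z k ∈ Metric.closedBall (0 : Cn n) M := by
      rw [mem_closedBall_zero_iff]; linarith [not_le.1 hlt]
    have h2 := hB _ h1
    have h3 := hz2 k
    have h4 : (N : ℝ) ≤ k := by exact_mod_cast hk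
    linarith
  have hfL : HasLProperty f z := by
    intro K hK _
    obtain ⟨B, hB⟩ := hK.isBounded.exists_norm_le
    obtain ⟨N, hN⟩ := exists_nat_ge B
    apply (Set.finite_lt_nat N).subset
    intro k hk
    have h1 := hB _ hk
    have h2 := hz2 k
    have h3 : (k : ℝ) < N := by linarith
    exact_mod_cast h3
  have hαL := hp z htend hfL (Metric.closedBall 0 R) (isCompact_closedBall _ _)
    (fun x _ => hα x)
  have huniv : {k : ℕ | α (z k) ∈ Metric.closedBall (0 : ℂ) R} = Set.univ := by
    ext k
    simp only [Set.mem_ofPred_eq, Set.mem_univ, iff_true, mem_closedBall_zero_iff]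
    exact hz1 k
  rw [huniv] at hαL
  exact Set.infinite_univ hαL

/-- Liouville along an entire curve lying in a level set of `α`. -/
lemma const_on_curve {α f : Cn n → ℂ} (hf : Differentiable ℂ f)
    (hb : ∀ R : ℝ, ∃ B : ℝ, ∀ z, ‖α z‖ ≤ R → ‖f z‖ ≤ B)
    {γ : ℂ → Cn n} (hγ : Differentiable ℂ γ) {c : ℂ} (hc : ∀ s, α (γ s) = c) (s t : ℂ) :
    f (γ s) = f (γ t) := by
  obtain ⟨B, hB⟩ := hb ‖c‖
  have hd : Differentiable ℂ (fun s => f (γ s)) := hf.comp hγ
  apply hd.apply_eq_apply_of_bounded
  rw [isBounded_iff_forall_norm_le]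
  refine ⟨B, ?_⟩
  rintro _ ⟨s, rfl⟩
  exact hB _ (by rw [hc])

end

/-- For every `n ≥ 2` there is an L-atom on `ℂⁿ` (namely `z ↦ z₁ z₂`) which is not the first
component of any analytic automorphism of `ℂⁿ`. -/
theorem result : ∀ n : ℕ, 2 ≤ n →
    ∃ α : Cn n → ℂ, IsLAtom α ∧ ¬ IsFirstComponent α := by
  intro n hn
  set i : Fin n := ⟨0, by omega⟩ with hi
  set j : Fin n := ⟨1, by omega⟩ with hj
  have hij : i ≠ j := by
    intro h
    have := congrArg Fin.val h
    simp [hi, hj] at this
  have hji : j ≠ i := hij.symm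
  set α : Cn n → ℂ := fun z => z i * z j with hα
  have hαd : Differentiable ℂ α := by
    intro z
    have h1 : DifferentiableAt ℂ (fun z : Cn n => z i) z :=
      (EuclideanSpace.proj (𝕜 := ℂ) i).differentiableAt
    have h2 : DifferentiableAt ℂ (fun z : Cn n => z j) z :=
      (EuclideanSpace.proj (𝕜 := ℂ) j).differentiableAt
    exact h1.mul h2
  let P : ℂ → Cn n := fun c => c • EuclideanSpace.single i (1 : ℂ) + EuclideanSpace.single j (1 : ℂ)
  have hPd : Differentiable ℂ P := by
    intro c
    exact ((differentiableAt_id.smul_const _).add_const _)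
  have hPi : ∀ c, P c i = c := by
    intro c; simp [P, hij]
  have hPj : ∀ c, P c j = 1 := by
    intro c; simp [P, hji]
  have hPα : ∀ c, α (P c) = c := by
    intro c; simp only [hα]; rw [hPi, hPj, mul_one]
  have hsurj : Function.Surjective α := fun c => ⟨P c, hPα c⟩
  refine ⟨α, ⟨hαd, ⟨P 0, P 1, by rw [hPα, hPα]; norm_num⟩, ?_⟩, ?_⟩
  · intro f hf hp
    have hb := pair_bounded hsurj hf hp
    -- step 1: the other coordinates do not matter
    have step1 : ∀ z w : Cn n, z i = w i → z j = w j → f z = f w := by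
      intro z w h1 h2
      have hγ : Differentiable ℂ (fun t : ℂ => z + t • (w - z)) := by
        intro t
        exact (differentiableAt_id.smul_const _).const_add _
      have := const_on_curve (α := α) hf hb hγ (c := z i * z j) (by
        intro s
        simp [hα, h1, h2]) 0 1
      simpa using this
    -- step 2: moving along the hyperbola
    have step2 : ∀ z : Cn n, z j ≠ 0 → f z = f (P (α z)) := by
      intro z hz
      let γ : ℂ → Cn n := fun s => z + ((z i * (Complex.exp s - 1)) • EuclideanSpace.single i (1 : ℂ)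
        + (z j * (Complex.exp (-s) - 1)) • EuclideanSpace.single j (1 : ℂ))
      have hγ : Differentiable ℂ γ := by
        have e1 : Differentiable ℂ (fun s : ℂ => z i * (Complex.exp s - 1)) := by fun_prop
        have e2 : Differentiable ℂ (fun s : ℂ => z j * (Complex.exp (-s) - 1)) := by fun_prop
        exact ((e1.smul_const _).add (e2.smul_const _)).const_add _
      have hγi : ∀ s, γ s i = z i * Complex.exp s := by
        intro s
        simp [γ, hij]
        ring
      have hγj : ∀ s, γ s j = z j * Complex.exp (-s) := by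
        intro s
        simp [γ, hji]
        ring
      have hc : ∀ s, α (γ s) = z i * z j := by
        intro s
        simp only [hα]
        rw [hγi, hγj, Complex.exp_neg]
        have := Complex.exp_ne_zero s
        field_simp
      have h1 := const_on_curve (α := α) hf hb hγ hc 0 (Complex.log (z j))
      have h2 : γ 0 = z := by simp [γ]
      rw [h2] at h1
      rw [h1]
      apply step1
      · rw [hγi, hPi, Complex.exp_log hz]
      · rw [hγj, hPj, Complex.exp_neg, Complex.exp_log hz, mul_inv_cancel₀ hz]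
    have step3 : ∀ z : Cn n, f z = f (P (α z)) := by
      intro z
      by_cases hz : z j = 0
      · have hα0 : α z = 0 := by simp [hα, hz]
        rw [hα0]
        have hγ : Differentiable ℂ (fun t : ℂ => t • z) := by
          intro t
          exact (differentiableAt_id.smul_const _)
        have h1 := const_on_curve (α := α) hf hb hγ (c := 0) (by
          intro s
          simp [hα, hz]) 1 0
        have hγ2 : Differentiable ℂ (fun t : ℂ => t • EuclideanSpace.single j (1 : ℂ)) := by
          intro t
          exact (differentiableAt_id.smul_const _)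
        have h2 := const_on_curve (α := α) hf hb hγ2 (c := 0) (by
          intro s
          simp [hα, hij]) 0 1
        simp only [one_smul, zero_smul] at h1 h2
        rw [h1, h2]
        congr 1
        simp [P]
      · exact step2 z hz
    exact ⟨fun c => f (P c), (hf.comp hPd).differentiableOn, step3⟩
  · rintro ⟨F, i', hi', ⟨hFd, hFi, -⟩, hF⟩
    have hii : i' = i := Fin.ext hi'
    subst hii
    have hinj := Pool.Agent.Helper540.osgood n (Cn n) (Cn n) (by simp) (by simp)
      Set.univ isOpen_univ F hFd.differentiableOn hFi.injOn 0 (Set.mem_univ _)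
    -- the derivative of the first component vanishes at the origin
    have hsur : Function.Surjective (fderiv ℂ F 0) :=
      (LinearMap.injective_iff_surjective (f := (fderiv ℂ F 0 : Cn n →ₗ[ℂ] Cn n))).1 hinj
    obtain ⟨v, hv⟩ := hsur (EuclideanSpace.single i (1 : ℂ))
    have h1 : HasFDerivAt (fun z => F z i)
        ((EuclideanSpace.proj (𝕜 := ℂ) i).comp (fderiv ℂ F 0)) 0 :=
      (EuclideanSpace.proj (𝕜 := ℂ) i).hasFDerivAt.comp 0 (hFd 0).hasFDerivAt
    have h2 : (fun z => F z i) = α := funext hF
    rw [h2] at h1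
    have h3 : HasFDerivAt α (((0 : Cn n) i) • (EuclideanSpace.proj (𝕜 := ℂ) j : Cn n →L[ℂ] ℂ)
        + ((0 : Cn n) j) • (EuclideanSpace.proj (𝕜 := ℂ) i : Cn n →L[ℂ] ℂ)) 0 := by
      exact ((EuclideanSpace.proj (𝕜 := ℂ) i).hasFDerivAt (x := (0 : Cn n))).mul
        ((EuclideanSpace.proj (𝕜 := ℂ) j).hasFDerivAt (x := (0 : Cn n)))
    have h4 := h1.unique h3
    have h5 := congrArg (fun L : Cn n →L[ℂ] ℂ => L v) h4
    simp [hv] at h5

end Pool.Agent.Results.MP_cc4673_an.ProductIsLAtom
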